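import Pool.Agent.H428R2.PK.Main

set_option autoImplicit false

open Complex Metric Set Filter Topology

namespace Pool.Agent.Results.MP_129fce_an.PeakNotZero

/-- The class `A_α`: functions continuous on the closed unit disc, analytic in the open unit disc
and Lipschitz of order `α` on the unit circle. -/
def InA (α : ℝ) (f : ℂ → ℂ) : Prop :=
  ContinuousOn f (closedBall 0 1) ∧ DifferentiableOn ℂ f (ball 0 1) ∧
  ∃ C : ℝ, ∀ z ∈ sphere (0:ℂ) 1, ∀ w ∈ sphere (0:ℂ) 1, ‖f z - f w‖ ≤ C * ‖z - w‖ ^ α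

/-- `E` is a peak set for `A_α`: a closed subset of the unit circle such that some `f` in `A_α` is
equal to `1` on `E` and has modulus less than `1` on the rest of the circle. -/
def IsPeakSet (α : ℝ) (E : Set ℂ) : Prop :=
  E ⊆ sphere 0 1 ∧ IsClosed E ∧ ∃ f : ℂ → ℂ, InA α f ∧ (∀ z ∈ E, f z = 1) ∧
    ∀ z ∈ sphere (0:ℂ) 1, z ∉ E → ‖f z‖ < 1

/-- The Gevrey class `G_α`: functions analytic in the open unit disc whose `n`-th derivative is
bounded there by `C ^ (n+1) * (n!) ^ (1 + 1/α)`, for a constant `C` and all `n`. -/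
def InG (α : ℝ) (f : ℂ → ℂ) : Prop :=
  DifferentiableOn ℂ f (ball 0 1) ∧ ∃ C : ℝ, ∀ n : ℕ, ∀ z ∈ ball (0:ℂ) 1,
    ‖iteratedDeriv n f z‖ ≤ C ^ (n+1) * (n.factorial : ℝ) ^ (1 + 1/α)

/-- `E` is a zero set for `G_α`: some `f` in `G_α`, not identically zero in the disc, has all its
derivatives (continuously extended to the closed disc, that is: as limits from inside the disc)
equal to zero at all points of `E`. -/
def IsZeroSet (α : ℝ) (E : Set ℂ) : Prop :=
  ∃ f : ℂ → ℂ, InG α f ∧ (∃ z ∈ ball (0:ℂ) 1, f z ≠ 0) ∧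
    ∀ n : ℕ, ∀ ζ ∈ E, Tendsto (iteratedDeriv n f) (𝓝[ball 0 1] ζ) (𝓝 0)

/-- For every `α` with `0 < α ≤ 1` there is a closed subset of the unit circle that is a peak set
for the analytic Lipschitz class `A_α` but is not a zero set for the Gevrey class `G_α`. -/
theorem result : ∀ α : ℝ, 0 < α → α ≤ 1 →
    ∃ E : Set ℂ, IsPeakSet α E ∧ ¬ IsZeroSet α E := by
  intro α h0 h1
  exact H428PK.main α h0 h1

end Pool.Agent.Results.MP_129fce_an.PeakNotZero
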